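import Pool.Agent.H92.KST.Targets

/-!
# Row MV1 of board kst_modules: the first move
-/

set_option autoImplicit false
set_option linter.dupNamespace false

universe u

namespace Pool.Agent.H2.KST

open Pool.Agent.H92.KST

section sym
variable {F M : Type u} [Field F] [AddCommGroup M] (σ : Symb F M)

theorem one_l (c : F) (hc : c ≠ 0) : σ.s 1 c = 0 := by
  have h := σ.mul_left 1 1 c one_ne_zero one_ne_zero hc
  rw [mul_one] at h
  exact (left_eq_add.mp h)

theorem one_r (c : F) (hc : c ≠ 0) : σ.s c 1 = 0 := by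
  have h := σ.mul_right c 1 1 hc one_ne_zero one_ne_zero
  rw [mul_one] at h
  exact (left_eq_add.mp h)

theorem inv_l (a c : F) (ha : a ≠ 0) (hc : c ≠ 0) : σ.s a⁻¹ c = - σ.s a c := by
  have h := σ.mul_left a⁻¹ a c (inv_ne_zero ha) ha hc
  rw [inv_mul_cancel₀ ha, one_l σ c hc] at h
  exact eq_neg_of_add_eq_zero_left h.symm

theorem inv_r (a c : F) (ha : a ≠ 0) (hc : c ≠ 0) : σ.s a c⁻¹ = - σ.s a c := by
  have h := σ.mul_right a c⁻¹ c ha (inv_ne_zero hc) hc
  rw [inv_mul_cancel₀ hc, one_r σ a ha] at h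
  exact eq_neg_of_add_eq_zero_left h.symm

theorem neg_self (a : F) (ha : a ≠ 0) : σ.s a (-a) = 0 := by
  by_cases h1 : a = 1
  · subst h1
    exact one_l σ _ (neg_ne_zero.mpr one_ne_zero)
  · have hu : (1 : F) - a ≠ 0 := sub_ne_zero.mpr (Ne.symm h1)
    have hv : (1 : F) - a⁻¹ ≠ 0 := by
      refine sub_ne_zero.mpr ?_
      intro h
      exact h1 (by rw [← inv_inv a, ← h, inv_one])
    have he : -a = (1 - a) * (1 - a⁻¹)⁻¹ := by
      rw [eq_mul_inv_iff_mul_eq₀ hv]
      field_simp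
      ring
    have h2 : σ.s a (1 - a) = 0 := σ.st a (1 - a) ha hu (by ring)
    have h3 : σ.s a⁻¹ (1 - a⁻¹) = 0 := σ.st a⁻¹ (1 - a⁻¹) (inv_ne_zero ha) hv (by ring)
    rw [inv_l σ _ _ ha hv] at h3
    rw [he, σ.mul_right a _ _ ha hu (inv_ne_zero hv), h2, inv_r σ a _ ha hv, h3, zero_add]

theorem anti (a b : F) (ha : a ≠ 0) (hb : b ≠ 0) : σ.s a b = - σ.s b a := by
  have hab : a * b ≠ 0 := mul_ne_zero ha hb
  have h := neg_self σ (a * b) hab
  rw [σ.mul_left a b _ ha hb (neg_ne_zero.mpr hab)] at h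
  have e1 : -(a * b) = (-a) * b := by ring
  have e2 : (-a) * b = (-b) * a := by ring
  have h1 : σ.s a (-(a * b)) = σ.s a b := by
    rw [e1, σ.mul_right a _ _ ha (neg_ne_zero.mpr ha) hb, neg_self σ a ha, zero_add]
  have h2 : σ.s b (-(a * b)) = σ.s b a := by
    rw [e1, e2, σ.mul_right b _ _ hb (neg_ne_zero.mpr hb) ha, neg_self σ b hb, zero_add]
  rw [h1, h2] at h
  exact eq_neg_of_add_eq_zero_left h

/-- the basic formula -/
theorem fml (A B : F) (hA : A ≠ 0) (h1 : 1 + A ≠ 0) (h2 : 1 + B ≠ 0)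
    (h3 : 1 - A * B ≠ 0) :
    σ.s (1 + A) (1 + B) = σ.s (1 + A) (1 - A * B) +
      σ.s (1 - A * B) (-A * (1 + B) * (1 - A * B)⁻¹) := by
  have hi : (1 - A * B)⁻¹ ≠ 0 := inv_ne_zero h3
  have hnA : -A ≠ 0 := neg_ne_zero.mpr hA
  have hAB : -A * (1 + B) ≠ 0 := mul_ne_zero hnA h2
  have hABi : -A * (1 + B) * (1 - A * B)⁻¹ ≠ 0 := mul_ne_zero hAB hi
  have hs : σ.s ((1 + A) * (1 - A * B)⁻¹) (-A * (1 + B) * (1 - A * B)⁻¹) = 0 := by
    refine σ.st _ _ (mul_ne_zero h1 hi) hABi ?_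
    field_simp
    ring
  rw [σ.mul_left _ _ _ h1 hi hABi, inv_l σ _ _ h3 hABi,
    σ.mul_right _ _ _ h1 hAB hi, σ.mul_right _ _ _ h1 hnA h2, inv_r σ _ _ h1 h3,
    σ.st (1 + A) (-A) h1 hnA (by ring), zero_add] at hs
  have h4 : σ.s (1 + A) (1 + B) =
      σ.s (1 + A) (1 + B) + -σ.s (1 + A) (1 - A * B) +
        -σ.s (1 - A * B) (-A * (1 + B) * (1 - A * B)⁻¹) + (σ.s (1 + A) (1 - A * B) +
      σ.s (1 - A * B) (-A * (1 + B) * (1 - A * B)⁻¹)) := by abel
  rw [hs, zero_add] at h4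
  exact h4

end sym

section ring
variable {R F : Type u} [CommRing R] [IsDomain R] [Field F] [Algebra R F] [IsFractionRing R F]

omit [IsDomain R] in
theorem map_ne {s : R} (hs : s ≠ 0) : algebraMap R F s ≠ 0 := by
  intro h
  exact hs (IsFractionRing.injective R F (by rw [h, map_zero]))

omit [IsDomain R] in
theorem inL_div (T : Set (Ideal R)) (r s : R) (hs : s ≠ 0) (hq : ∀ q ∈ T, s ∉ q) :
    InL T (algebraMap R F r / algebraMap R F s) :=
  ⟨s, r, hs, hq, by rw [mul_div_cancel₀ _ (map_ne hs)]⟩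

omit [IsDomain R] [IsFractionRing R F] in
theorem inL_neg (T : Set (Ideal R)) (f : F) (h : InL T f) : InL (R := R) T (-f) := by
  obtain ⟨s, r, hs, hq, he⟩ := h
  exact ⟨s, -r, hs, hq, by rw [mul_neg, he, map_neg]⟩

end ring

section small
variable {R F M : Type u} [CommRing R] [IsDomain R] [Field F] [Algebra R F]
  [IsFractionRing R F] [AddCommGroup M]

omit [IsDomain R] [IsFractionRing R F] in
theorem mem_left (S : Sit R) (σ : Symb F M) (T : Set (Ideal R)) (c g : F) (hc : InL T c)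
    (hg : g ≠ 0) (h : 1 + algebraMap R F S.p ^ (S.n + 1) * c ≠ 0) :
    σ.s (1 + algebraMap R F S.p ^ (S.n + 1) * c) g ∈ U S σ T :=
  AddSubgroup.subset_closure ⟨c, g, hc, hg, h, rfl⟩

omit [IsDomain R] [IsFractionRing R F] in
theorem mem_right (S : Sit R) (σ : Symb F M) (T : Set (Ideal R)) (c g : F) (hc : InL T c)
    (hg : g ≠ 0) (h : 1 + algebraMap R F S.p ^ (S.n + 1) * c ≠ 0) :
    σ.s g (1 + algebraMap R F S.p ^ (S.n + 1) * c) ∈ U S σ T := by
  rw [anti σ g _ hg h]
  exact (U S σ T).neg_mem (mem_left S σ T c g hc hg h)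

omit [IsDomain R] in
theorem unit_ne (S : Sit R) (y : S.Y) (c : F) (hc : InL (S.T y) c) :
    1 + algebraMap R F S.p ^ (S.n + 1) * c ≠ 0 := by
  obtain ⟨s, r, hs, hq, he⟩ := hc
  intro h
  obtain ⟨q, hqT⟩ := S.ne y
  have hp : S.p ∈ q := S.mem y q hqT
  have h1 : algebraMap R F (s + S.p ^ (S.n + 1) * r) = 0 := by
    rw [map_add, map_mul, map_pow, ← he]
    have : algebraMap R F s + algebraMap R F S.p ^ (S.n + 1) * (algebraMap R F s * c) =
      algebraMap R F s * (1 + algebraMap R F S.p ^ (S.n + 1) * c) := by ring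
    rw [this, h, mul_zero]
  have h2 : s + S.p ^ (S.n + 1) * r = 0 := IsFractionRing.injective R F (by rw [h1, map_zero])
  refine hq q hqT ?_
  have h3 : s = -(S.p ^ (S.n + 1) * r) := eq_neg_of_add_eq_zero_left h2
  rw [h3]
  refine q.neg_mem (q.mul_mem_right _ ?_)
  exact Ideal.pow_mem_of_mem q hp _ (Nat.succ_pos _)

omit [IsDomain R] in
theorem mem_of_mul (S : Sit R) (σ : Symb F M) (y : S.Y) (A B c : F) (hc : InL (S.T y) c)
    (hAB : A * B = algebraMap R F S.p ^ (S.n + 1) * c) (h1 : 1 + A ≠ 0) (h2 : 1 + B ≠ 0) :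
    σ.s (1 + A) (1 + B) ∈ U S σ (S.T y) := by
  by_cases hA : A = 0
  · rw [hA, add_zero, one_l σ _ h2]
    exact (U S σ (S.T y)).zero_mem
  · have hc' : InL (S.T y) (-c) := inL_neg _ _ hc
    have he : 1 - A * B = 1 + algebraMap R F S.p ^ (S.n + 1) * (-c) := by
      rw [hAB]; ring
    have h3 : 1 - A * B ≠ 0 := by
      rw [he]; exact unit_ne S y _ hc'
    rw [fml σ A B hA h1 h2 h3]
    refine (U S σ (S.T y)).add_mem ?_ ?_
    · rw [he]
      rw [he] at h3
      exact mem_right S σ _ _ _ hc' h1 h3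
    · have h4 : -A * (1 + B) * (1 - A * B)⁻¹ ≠ 0 :=
        mul_ne_zero (mul_ne_zero (neg_ne_zero.mpr hA) h2) (inv_ne_zero h3)
      have h5 := mem_left S σ (S.T y) (-c) (-A * (1 + B) * (1 - A * B)⁻¹) hc' h4
        (by rw [← he]; exact h3)
      rw [← he] at h5
      exact h5

end small

theorem pf_MV1 (hRAD : T_RAD.{u}) : T_MV1.{u} := by
  intro R F M _ _ _ _ _ _ _ _ S σ y b hb hbe
  have hrad := hRAD R (S.T y) (S.fin y) (S.ne y) (S.pr y)
    (Ideal.span {b, S.p ^ (S.n + 1)}) (sInf (S.T y)) ?_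
  · obtain ⟨k, s, hs0, hsq, hs⟩ := hrad
    refine ⟨k, ?_⟩
    intro a f hf hJ h1A
    obtain ⟨s1, r1, hs10, hs1q, hr1, he1⟩ := hJ
    obtain ⟨x, z, hxz⟩ := Ideal.mem_span_pair.mp (hs r1 hr1)
    set P : F := algebraMap R F S.p ^ (S.n + 1) with hP
    have hPm : P = algebraMap R F (S.p ^ (S.n + 1)) := by rw [hP, map_pow]
    -- the denominator
    have ht0 : s * s1 ≠ 0 := mul_ne_zero hs0 hs10
    have htq : ∀ q ∈ S.T y, s * s1 ∉ q := by
      intro q hq h
      rcases (S.pr y q hq).mem_or_mem h with h' | h'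
      · exact hsq q hq h'
      · exact hs1q q hq h'
    have hd : algebraMap R F (s * s1) * (f - 1) =
        algebraMap R F x * algebraMap R F b + algebraMap R F z * P := by
      rw [hPm, ← map_mul, ← map_mul, ← map_add, hxz, map_mul, mul_assoc, he1, map_mul]
    have hvq : ∀ q ∈ S.T y, s * s1 + S.p ^ (S.n + 1) * z ∉ q := by
      intro q hq h
      refine htq q hq ?_
      have h2 : S.p ^ (S.n + 1) * z ∈ q :=
        q.mul_mem_right _ (Ideal.pow_mem_of_mem q (S.mem y q hq) _ (Nat.succ_pos _))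
      exact (Submodule.add_mem_iff_left q h2).mp h
    have hv0 : s * s1 + S.p ^ (S.n + 1) * z ≠ 0 := by
      obtain ⟨q, hq⟩ := S.ne y
      intro h
      refine hvq q hq ?_
      rw [h]
      exact q.zero_mem
    have hT0 : algebraMap R F (s * s1) ≠ 0 := map_ne ht0
    have hV0 : algebraMap R F (s * s1 + S.p ^ (S.n + 1) * z) ≠ 0 := map_ne hv0
    have hB0 : algebraMap R F b ≠ 0 := map_ne hb
    have hVe : algebraMap R F (s * s1 + S.p ^ (S.n + 1) * z) =
        algebraMap R F (s * s1) + P * algebraMap R F z := by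
      rw [map_add, map_mul _ (S.p ^ (S.n + 1)) z, hPm]
    set t : F := algebraMap R F (s * s1) with ht
    set v : F := algebraMap R F (s * s1 + S.p ^ (S.n + 1) * z) with hv
    have hd2 : InL (S.T y) (algebraMap R F z / t) := inL_div _ _ _ ht0 htq
    have hd1 : InL (S.T y) (algebraMap R F (a * x) / v) := inL_div _ _ _ hv0 hvq
    have hu2 : 1 + P * (algebraMap R F z / t) ≠ 0 := unit_ne S y _ hd2
    have hfe : f = (1 + P * (algebraMap R F z / t)) *
        (1 + algebraMap R F b * (algebraMap R F x / v)) := by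
      have e1 : f = (t + (algebraMap R F x * algebraMap R F b + algebraMap R F z * P)) / t := by
        rw [eq_div_iff hT0, ← hd]; ring
      rw [e1]
      have e2 : 1 + P * (algebraMap R F z / t) = v / t := by
        rw [hVe, add_div, div_self hT0, mul_div_assoc]
      have e3 : 1 + algebraMap R F b * (algebraMap R F x / v) =
          (v + algebraMap R F b * algebraMap R F x) / v := by
        rw [add_div, div_self hV0, mul_div_assoc]
      rw [e2, e3, div_mul_div_comm, mul_comm t v, mul_div_mul_left _ _ hV0, hVe]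
      congr 1
      ring
    have hw : 1 + algebraMap R F b * (algebraMap R F x / v) ≠ 0 := by
      intro h
      rw [h, mul_zero] at hfe
      exact hf hfe
    rw [hfe, σ.mul_right _ _ _ h1A hu2 hw]
    refine (U S σ (S.T y)).add_mem ?_ ?_
    · exact mem_right S σ _ _ _ hd2 h1A hu2
    · refine mem_of_mul S σ y _ _ _ hd1 ?_ h1A hw
      rw [← hP, map_mul]
      field_simp
  · intro Q hQ hBel
    obtain ⟨q, hqT, hQq⟩ := hBel
    have hQp : Q.IsPrime := hQ.1.1
    have hIQ : Ideal.span {b, S.p ^ (S.n + 1)} ≤ Q := hQ.1.2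
    have hbQ : b ∈ Q := hIQ (Ideal.subset_span (by simp))
    have hpQ : S.p ∈ Q :=
      hQp.mem_of_pow_mem (S.n + 1) (hIQ (Ideal.subset_span (by simp)))
    by_cases hEq : Q = q
    · rw [hEq]
      exact sInf_le hqT
    · exfalso
      have hlt : Q < q := lt_of_le_of_ne hQq hEq
      have hqp : q.IsPrime := S.pr y q hqT
      have hh : Q.height < q.height := Ideal.height_strict_mono_of_isPrime_of_isPrime hlt
      rw [S.ht y q hqT] at hh
      have h0 : Q.height ≠ 0 := by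
        intro h0
        rw [Ideal.height_eq_zero_iff_eq_bot] at h0
        rw [h0] at hpQ
        exact S.p0 ((Submodule.mem_bot R).mp hpQ)
      have h1 : Q.height = 1 := by
        have h2 : Q.height ≤ 1 := by
          refine Order.le_of_lt_add_one ?_
          rw [one_add_one_eq_two]
          exact hh
        exact le_antisymm h2 (Order.one_le_iff_ne_zero.mpr h0)
      exact hbe Q ⟨hQp, h1, hpQ⟩ ⟨q, hqT, hQq⟩ hbQ

end Pool.Agent.H2.KST
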